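import Pool.Agent.W857.CC.Fin
import Pool.Agent.W857.CC.Cy
import Pool.Agent.W970.CC.EMB
import Pool.Agent.W970.CC.MATCH
import Pool.Agent.W991.CC.Walk
import Pool.Agent.W857.CC.NB12
import Pool.Agent.W806.CC.UP
import Pool.Agent.W597.CC.NB5
import Pool.Agent.W540.CC.NB6
import Pool.Agent.W721.CC.SPEC
import Pool.Agent.W721.CC.FROB
import Pool.Agent.W721.CC.COMP
import Pool.Agent.W721.CC.BLOW
import Pool.Agent.W721.CC.CUT
import Pool.Agent.W340.CC.Reg
import Pool.Agent.W32.CC.NB34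

/-!
# Nikiforov's problem on consecutive cycle lengths under a spectral radius condition

The largest admissible constant is `(3 - √5) / 2`.
-/

namespace Pool.Agent.Results.MP_bc5e1d_co.ConsecutiveCycles

open scoped Classical in
/-- The largest eigenvalue of the adjacency matrix of a graph `G` of order `n`. -/
noncomputable def lambda {n : ℕ} (G : SimpleGraph (Fin n)) : ℝ :=
  sSup {μ : ℝ | ∃ x : Fin n → ℝ, x ≠ 0 ∧ (G.adjMatrix ℝ).mulVec x = μ • x}

/-- `C > 0` is admissible: for every `0 < ε < C` there is `n₀` such that every graph `G` of order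
`n ≥ n₀` with `lambda G > √⌊n ^ 2 / 4⌋` contains a cycle of length `ℓ` for every integer `ℓ` with
`3 ≤ ℓ ≤ (C - ε) n`. -/
def Admissible (C : ℝ) : Prop :=
  0 < C ∧ ∀ ε : ℝ, 0 < ε → ε < C → ∃ n₀ : ℕ, ∀ n : ℕ, n₀ ≤ n → ∀ G : SimpleGraph (Fin n),
    Real.sqrt ((n ^ 2 / 4 : ℕ) : ℝ) < lambda G →
      ∀ ℓ : ℕ, 3 ≤ ℓ → (ℓ : ℝ) ≤ (C - ε) * n →
        ∃ (v : Fin n) (p : G.Walk v v), p.IsCycle ∧ p.length = ℓ

/-- **Answer to Nikiforov's question (2008)**: the largest admissible constant is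
`C* = (3 - √5) / 2`. -/
theorem result : IsGreatest {C : ℝ | Admissible C} ((3 - Real.sqrt 5) / 2) := by
  have hP := Pool.Agent.W721.CC.SPEC.perron
  have hR := Pool.Agent.W721.CC.SPEC.ray
  have hCut := Pool.Agent.W721.CC.CUT.cut hP
  have hTri := Pool.Agent.W721.CC.CUT.tri hCut
  have h := Pool.Agent.W857.CC.final
    (Pool.Agent.W857.CC.sA (Pool.Agent.W721.CC.FROB.main hP hR)
      (Pool.Agent.W721.CC.COMP.main hP hR) (Pool.Agent.W721.CC.BLOW.main hP hR) hCut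
      (Pool.Agent.W970.CC.MATCH.main hP Pool.Agent.W970.CC.MATCH.hall
        Pool.Agent.W970.CC.MATCH.real)
      Pool.Agent.W991.CC.Walk.main Pool.Agent.W970.CC.EMB.main Pool.Agent.W340.CC.Reg.main
      Pool.Agent.W857.CC.Cy.cyc)
    (Pool.Agent.W540.CC.NB6.main hTri
      (Pool.Agent.W857.CC.NB12.nb2 (Pool.Agent.W857.CC.NB12.nb1 hP hR))
      (Pool.Agent.W32.CC.NB34.nb3 hP) Pool.Agent.W32.CC.NB34.nb4 Pool.Agent.W597.CC.NB5.main
      Pool.Agent.W540.CC.NB6.nb6 Pool.Agent.W857.CC.Cy.cyc)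
    (Pool.Agent.W806.CC.UP.main (Pool.Agent.W806.CC.UP.up1 hR) Pool.Agent.W857.CC.Cy.up2)
  exact h

end Pool.Agent.Results.MP_bc5e1d_co.ConsecutiveCycles
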